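import Mathlib
import Pool.Agent.W609.Fin2

set_option autoImplicit false

/-!
# Arbitrary `M`, all other multiplicities at most `m`: every degree `d > M + 2 m`

General points `P 0, …, P n` of the complex projective plane, the multiplicity `M` of `P 0` is
arbitrary and those of the other points are arbitrary numbers at most `m`.  The linear system has
the expected dimension in every degree `d > M + 2 m` for which the number of coefficients left by
`P 0`, or the number of conditions at the other points, is at least of order `m ^ 4`.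
-/

namespace Pool.Agent.Results.MP_6e81d8_ag.AllButOneBounded

theorem result (n M m : ℕ) (w : Fin n → ℕ) (hw : ∀ i, w i ≤ m) :
    ∃ F : MvPolynomial (Fin (n + 1) × Fin 2) ℂ, F ≠ 0 ∧
      ∀ P : Fin (n + 1) → Fin 2 → ℂ,
        MvPolynomial.eval (fun ij : Fin (n + 1) × Fin 2 => P ij.1 ij.2) F ≠ 0 →
        ∀ d : ℕ, M + 2 * m < d →
          (64 * (m + 1) ^ 4 + M * (M + 1) ≤ (d + 1) * (d + 2) ∨
            64 * (m + 1) ^ 4 ≤ ∑ i, (w i + 1).choose 2) →
          Module.finrank ℂ
            ↥(MvPolynomial.homogeneousSubmodule (Fin 3) ℂ d ⊓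
              Submodule.restrictScalars ℂ
                (⨅ i : Fin (n + 1),
                  (Ideal.span
                    ({MvPolynomial.X 0 - MvPolynomial.C (P i 0) * MvPolynomial.X 2,
                      MvPolynomial.X 1 - MvPolynomial.C (P i 1) * MvPolynomial.X 2} :
                      Set (MvPolynomial (Fin 3) ℂ))) ^ ((Fin.cons M w : Fin (n + 1) → ℕ) i)))
          = Nat.choose (d + 2) 2 -
              ∑ i : Fin (n + 1), Nat.choose ((Fin.cons M w : Fin (n + 1) → ℕ) i + 1) 2 := by
  obtain ⟨F, hF, hF'⟩ := W609.one_big2 ℂ (M := M) hw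
  refine ⟨F.map (algebraMap ℚ ℂ), H932R3.map_ne_zero_of hF, fun P hP d hd h1 => ?_⟩
  rw [MvPolynomial.eval_map] at hP
  exact hF' P hP d hd h1

end Pool.Agent.Results.MP_6e81d8_ag.AllButOneBounded
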