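import Mathlib
import Pool.Agent.W609.UniX

set_option autoImplicit false

/-!
# All multiplicities, up to an exponentially small relative error

For every `n ≥ 2 ^ 1000`, all multiplicities `w 1, …, w n`, and all `d > 0` with
`√n d ≤ (1 - ε) ∑ w i`, or with `d ≥ (1 + ε) √n w i + √n` for all `i`, where
`ε = n exp (-n ^ (1 / 10))`, the linear system of forms of degree `d` with multiplicities `w i` at
`n` general points of the complex projective plane has the expected dimension.
-/

namespace Pool.Agent.Results.MP_6e81d8_ag.EveryVectorExponential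

theorem result (n : ℕ) (hn : 2 ^ 1000 ≤ n) (w : Fin n → ℕ) :
    ∃ F : MvPolynomial (Fin n × Fin 2) ℂ, F ≠ 0 ∧
      ∀ P : Fin n → Fin 2 → ℂ,
        MvPolynomial.eval (fun ij : Fin n × Fin 2 => P ij.1 ij.2) F ≠ 0 →
        ∀ d : ℕ, 0 < d →
          (Real.sqrt n * d ≤ (1 - n * Real.exp (-((n : ℝ) ^ (1 / 10 : ℝ)))) * ∑ i, (w i : ℝ) ∨
            ∀ i, (1 + n * Real.exp (-((n : ℝ) ^ (1 / 10 : ℝ)))) * (Real.sqrt n * w i) +
              Real.sqrt n ≤ d) →
          Module.finrank ℂ
            ↥(MvPolynomial.homogeneousSubmodule (Fin 3) ℂ d ⊓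
              Submodule.restrictScalars ℂ
                (⨅ i : Fin n,
                  (Ideal.span
                    ({MvPolynomial.X 0 - MvPolynomial.C (P i 0) * MvPolynomial.X 2,
                      MvPolynomial.X 1 - MvPolynomial.C (P i 1) * MvPolynomial.X 2} :
                      Set (MvPolynomial (Fin 3) ℂ))) ^ (w i)))
          = Nat.choose (d + 2) 2 - ∑ i, Nat.choose (w i + 1) 2 := by
  have hnR : (2 : ℝ) ^ 1000 ≤ n := by
    have h1 : ((2 ^ 1000 : ℕ) : ℝ) ≤ (n : ℝ) := Nat.cast_le.2 hn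
    rwa [Nat.cast_pow, Nat.cast_ofNat] at h1
  clear hn
  obtain ⟨F, hF, hF'⟩ := W609.U.wedge_expX ℂ hnR w
  clear hnR
  refine ⟨F.map (algebraMap ℚ ℂ), H932R3.map_ne_zero_of hF, fun P hP d hd0 hd => ?_⟩
  rw [MvPolynomial.eval_map] at hP
  exact hF' P hP d hd0 hd

end Pool.Agent.Results.MP_6e81d8_ag.EveryVectorExponential
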