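import Mathlib
import Pool.Agent.W609.T.Fin3

set_option autoImplicit false

/-!
# All degrees `d > m₁ + m₂ + m₃`, the first three multiplicities being arbitrary

Let `v 0 ≥ v 1 ≥ v 2 ≥ v 3 ≥ ⋯` be any multiplicities with `v 3 > 0`.  For general points of the
complex projective plane the linear system of forms of degree `d` with these multiplicities has the
expected dimension in every degree `d > v 0 + v 1 + v 2` for which the number of coefficients left
by the first three points, or the number of conditions at the other points, is at least of order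
`(v 3 + 1) ^ 4`.

The three large points are placed at the coordinate points, and the polygon of the remaining
monomials is treated by a degeneration in strips, taken from the triangle or, after a change of the
polygon (inversions and translations), from a rectangle.
-/

namespace Pool.Agent.Results.MP_6e81d8_ag.FirstThreeArbitrary

theorem result (r : ℕ) (v : Fin (r + 4) → ℕ) (hv : Antitone v) (h0 : 0 < v 3) :
    ∃ F : MvPolynomial (Fin (r + 4) × Fin 2) ℂ, F ≠ 0 ∧
      ∀ P : Fin (r + 4) → Fin 2 → ℂ,
        MvPolynomial.eval (fun ij : Fin (r + 4) × Fin 2 => P ij.1 ij.2) F ≠ 0 →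
        ∀ d : ℕ, v 0 + v 1 + v 2 < d →
          (131072 * (v 3 + 1) ^ 4 + (v 0 * (v 0 + 1) + v 1 * (v 1 + 1) + v 2 * (v 2 + 1)) ≤
              (d + 1) * (d + 2) ∨
            131072 * (v 3 + 1) ^ 4 ≤
              ∑ i : Fin (r + 4), if 3 ≤ (i : ℕ) then (v i + 1).choose 2 else 0) →
          Module.finrank ℂ
            ↥(MvPolynomial.homogeneousSubmodule (Fin 3) ℂ d ⊓
              Submodule.restrictScalars ℂ
                (⨅ i : Fin (r + 4),
                  (Ideal.span
                    ({MvPolynomial.X 0 - MvPolynomial.C (P i 0) * MvPolynomial.X 2,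
                      MvPolynomial.X 1 - MvPolynomial.C (P i 1) * MvPolynomial.X 2} :
                      Set (MvPolynomial (Fin 3) ℂ))) ^ (v i)))
          = Nat.choose (d + 2) 2 - ∑ i : Fin (r + 4), Nat.choose (v i + 1) 2 := by
  obtain ⟨F, hF, hF'⟩ := W609.T.big3 ℂ hv h0
  refine ⟨F.map (algebraMap ℚ ℂ), H932R3.map_ne_zero_of hF, fun P hP d hd h1 => ?_⟩
  rw [MvPolynomial.eval_map] at hP
  exact hF' P hP d hd h1

end Pool.Agent.Results.MP_6e81d8_ag.FirstThreeArbitrary
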