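import Mathlib
import Pool.Agent.W609.Fin

set_option autoImplicit false

/-!
# One point of arbitrary multiplicity: the whole Gimigliano range `d > M + 2 m`

General points `P 0, …, P n` of the complex projective plane, the multiplicity of `P 0` is
arbitrary and those of the other points are at most `m`.  The linear system has the expected
dimension in every degree `d > M + 2 m` under a lower bound of order `m ^ 3` for the number of
conditions (or of coefficients), if the large multiplicities among the bounded ones are not too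
frequent compared with the small ones.  For `k = m` there is no condition on the frequencies, and
all quasi-homogeneous classes `(d; M, m, …, m)` are covered.
-/

namespace Pool.Agent.Results.MP_6e81d8_ag.OneArbitraryMultiplicity

theorem result (n M m k : ℕ) (hk : 0 < k) (hkm : k ≤ m) (w : Fin n → ℕ) (hw : ∀ i, w i ≤ m)
    (hfreq : ∀ i, k < w i → 2 * (w i * (w i + 1) * (w i + 2)) ≤
      ∑ j ∈ Finset.univ.filter (fun j => min 2 k ≤ w j ∧ w j < w i), w j * (w j + 1)) :
    ∃ F : MvPolynomial (Fin (n + 1) × Fin 2) ℂ, F ≠ 0 ∧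
      ∀ P : Fin (n + 1) → Fin 2 → ℂ,
        MvPolynomial.eval (fun ij : Fin (n + 1) × Fin 2 => P ij.1 ij.2) F ≠ 0 →
        ∀ d : ℕ, M + 2 * m < d →
          (27 * (m + 4) ^ 3 + M * (M + 1) ≤ (d + 1) * (d + 2) ∨
            27 * (m + 4) ^ 3 ≤ ∑ i, (w i + 1).choose 2) →
          ((∀ i, w i ≤ 1 ∨ k ≤ w i) ∨
            (d + 2).choose 2 + 2 * (k + 1).choose 3 ≤
              (M + 1).choose 2 + ∑ i, (w i + 1).choose 2 ∨
            (M + 1).choose 2 + ∑ i ∈ Finset.univ.filter (fun i => w i ≠ 1), (w i + 1).choose 2 +
              2 * (k + 1).choose 3 ≤ (d + 2).choose 2) →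
          Module.finrank ℂ
            ↥(MvPolynomial.homogeneousSubmodule (Fin 3) ℂ d ⊓
              Submodule.restrictScalars ℂ
                (⨅ i : Fin (n + 1),
                  (Ideal.span
                    ({MvPolynomial.X 0 - MvPolynomial.C (P i 0) * MvPolynomial.X 2,
                      MvPolynomial.X 1 - MvPolynomial.C (P i 1) * MvPolynomial.X 2} :
                      Set (MvPolynomial (Fin 3) ℂ))) ^ ((Fin.cons M w : Fin (n + 1) → ℕ) i)))
          = Nat.choose (d + 2) 2 -
              ∑ i : Fin (n + 1), Nat.choose ((Fin.cons M w : Fin (n + 1) → ℕ) i + 1) 2 := by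
  obtain ⟨F, hF, hF'⟩ := W609.one_big ℂ (M := M) hk hkm hw hfreq
  refine ⟨F.map (algebraMap ℚ ℂ), H932R3.map_ne_zero_of hF, fun P hP d hd h1 h2 => ?_⟩
  rw [MvPolynomial.eval_map] at hP
  refine hF' P hP d hd h1 ?_
  rw [H932R7.Aw_w2_eq]
  rcases h2 with h2 | h2 | h2
  · exact Or.inr (Or.inr h2)
  · exact Or.inl h2
  · exact Or.inr (Or.inl h2)

end Pool.Agent.Results.MP_6e81d8_ag.OneArbitraryMultiplicity
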